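import Pool.Agent.helper53.ORE.Spec

/-!
# Project ore (MP_561ff4_al), row R3I
-/

set_option autoImplicit false

namespace Pool.Agent.ORE

open Module Pool.Agent.GS

theorem R3I_sq_inj {F : Type} [Field F] (h2 : (2 : F) = 0) {x y : F} (h : x * x = y * y) :
    x = y := by
  have h1 : (x + y) * (x + y) = 0 := by linear_combination h + (x * y + y * y) * h2
  exact eq_of_add2 h2 (mul_self_eq_zero.1 h1)

theorem R3I_exists_rt {F : Type} [Field F] [Finite F] (h2 : (2 : F) = 0) :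
    ∃ rt : F → F, (∀ a, rt a * rt a = a) ∧ (∀ a b, rt (a + b) = rt a + rt b) ∧
      ∀ c a, rt (c ^ 2 * a) = c * rt a := by
  have hch : CharP F 2 := charP2 h2
  have hr : ringChar F = 2 := ringChar.eq F 2
  have h1 : ∀ a : F, ∃ b, b * b = a := by
    intro a
    obtain ⟨b, hb⟩ := FiniteField.isSquare_of_char_two hr a
    exact ⟨b, hb.symm⟩
  choose rt hrt using h1
  refine ⟨rt, hrt, fun a b => ?_, fun c a => ?_⟩
  · apply R3I_sq_inj h2
    linear_combination hrt (a + b) - hrt a - hrt b - (rt a * rt b) * h2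
  · apply R3I_sq_inj h2
    linear_combination hrt (c ^ 2 * a) - c ^ 2 * hrt a

theorem R3I (ra : R3A_stmt) (rb : R3B_stmt) (ns : NSV_stmt) : R3I_stmt := by
  intro F V _ _ _ _ _ Q h2 hN hn y hy hy1 hyy
  have hyy' : ∀ v, y (y v) = v := by
    intro v
    have h3 : (y * y) v = v := by rw [hyy]; rfl
    exact h3
  have hcross : ∀ x x', pb Q x (y x') = pb Q x' (y x) := by
    intro x x'
    rw [← OQ_pb hy x (y x'), hyy', pb_symm]
  have hSadd : ∀ x x', pb Q (x + x') (y (x + x')) = pb Q x (y x) + pb Q x' (y x') := by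
    intro x x'
    rw [hy.1.1, map_add, map_add, LinearMap.add_apply, LinearMap.add_apply]
    linear_combination hcross x x' + pb Q x' (y x) * h2
  have hSsmul : ∀ (c : F) x, pb Q (c • x) (y (c • x)) = c ^ 2 * pb Q x (y x) := by
    intro c x
    rw [hy.1.2, map_smul, map_smul, LinearMap.smul_apply, smul_eq_mul, smul_eq_mul]
    ring
  by_cases hS : ∀ v, pb Q v (y v) = 0
  · exact rb Q h2 hN hn y hy hy1 0 (fun v => by rw [hS v, zero_mul])
  push Not at hS
  obtain ⟨x0, hx0⟩ := hS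
  obtain ⟨rt, hrt, hrta, hrtm⟩ := R3I_exists_rt (F := F) h2
  let φ : V →ₗ[F] F :=
    { toFun := fun v => rt (pb Q v (y v))
      map_add' := fun u v => by rw [hSadd, hrta]
      map_smul' := fun c v => by rw [hSsmul, hrtm]; rfl }
  have hinj : Function.Injective (pb Q : V →ₗ[F] Module.Dual F V) := by
    rw [injective_iff_map_eq_zero]
    intro v hv
    apply hN
    intro z
    rw [hv]
    rfl
  have hsur : Function.Surjective (pb Q : V →ₗ[F] Module.Dual F V) :=
    (LinearMap.injective_iff_surjective_of_finrank_eq_finrank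
      (Subspace.dual_finrank_eq (K := F) (V := V)).symm).1 hinj
  obtain ⟨w, hw⟩ := hsur φ
  have hw' : ∀ v, pb Q w v = rt (pb Q v (y v)) := fun v => by rw [hw]; rfl
  -- scale `x0`
  obtain ⟨c, hc⟩ : ∃ c : F, c ^ 2 * pb Q x0 (y x0) = 1 := by
    refine ⟨rt (pb Q x0 (y x0))⁻¹, ?_⟩
    rw [pow_two, hrt, inv_mul_cancel₀ hx0]
  obtain ⟨x, hx⟩ : ∃ x : V, pb Q x (y x) = 1 := ⟨c • x0, by rw [hSsmul, hc]⟩
  obtain ⟨g, hg1, hg2⟩ := ns Q h2 hN 2 ![w, x] (by omega)
  have hgw : pb Q g w = 0 := hg1 0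
  have hgx : pb Q g x = 0 := hg1 1
  have hSg : pb Q g (y g) = 0 := by
    have h3 : rt (pb Q g (y g)) = 0 := by rw [← hw' g, pb_symm, hgw]
    rw [← hrt (pb Q g (y g)), h3, mul_zero]
  have hQa : Q (x + rt (1 + Q x) • g) = 1 := by
    rw [Q_add, Q_smul, hg2, map_smul, pb_symm Q x g, hgx, smul_zero]
    linear_combination hrt (1 + Q x) + Q x * h2
  have hSa : pb Q (x + rt (1 + Q x) • g) (y (x + rt (1 + Q x) • g)) = 1 := by
    rw [hSadd, hSsmul, hSg, hx]
    ring
  exact ra Q h2 hN hn y hy (x + rt (1 + Q x) • g) (by rw [hQa]; exact one_ne_zero)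
    (by rw [hSa, hQa])

end Pool.Agent.ORE
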